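import Pool.Agent.W25.UB.Stm

set_option autoImplicit false
set_option linter.all false

namespace Pool.Agent.W918.UBexm

open Finset
open Pool.Agent.W25.UB

theorem ofFam {κ : Type} (J : Finset κ) (q : κ → ℕ) (b : κ → ℤ) (φ : κ → ℝ) (S : ℕ → Prop)
    (Y R : ℝ) (Φ : ℤ → ℝ) (m : ℝ)
    (h1 : ∀ n : ℤ, Φ n = ∑ j ∈ J, φ j * (if (q j : ℤ) ∣ n - b j then 1 else 0))
    (h2 : ∑ j ∈ J, |φ j| ≤ Y)
    (h3 : ∀ j ∈ J, 1 ≤ q j ∧ (q j : ℝ) ≤ R ∧ Odd (q j) ∧ Squarefree (q j) ∧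
      ∀ p : ℕ, p.Prime → p ∣ q j → S p)
    (h4 : m = ∑ j ∈ J, φ j / q j) : Ex S Y R Φ m := by
  classical
  set g : κ → ℕ × ℤ := fun j => (q j, b j) with hg
  have hmaps : ∀ j ∈ J, g j ∈ J.image g := fun j hj => Finset.mem_image_of_mem g hj
  refine ⟨J.image g, fun x => ∑ j ∈ J with g j = x, φ j, ?_, ?_, ?_, ?_⟩
  · intro n
    rw [h1 n, ← Finset.sum_fiberwise_of_maps_to hmaps]
    refine Finset.sum_congr rfl fun x _ => ?_
    rw [Finset.sum_mul]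
    refine Finset.sum_congr rfl fun j hj => ?_
    rw [← (Finset.mem_filter.1 hj).2]
  · refine le_trans ?_ h2
    rw [← Finset.sum_fiberwise_of_maps_to hmaps]
    exact Finset.sum_le_sum fun x _ => Finset.abs_sum_le_sum_abs _ _
  · intro x hx
    obtain ⟨j, hj, rfl⟩ := Finset.mem_image.1 hx
    exact h3 j hj
  · rw [h4, ← Finset.sum_fiberwise_of_maps_to hmaps]
    refine Finset.sum_congr rfl fun x _ => ?_
    rw [Finset.sum_div]
    refine Finset.sum_congr rfl fun j hj => ?_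
    rw [← (Finset.mem_filter.1 hj).2]

theorem crt {q q' : ℕ} (h : Nat.Coprime q q') (b b' : ℤ) : ∃ c : ℤ, ∀ n : ℤ,
    (if (q : ℤ) ∣ n - b then (1 : ℝ) else 0) * (if (q' : ℤ) ∣ n - b' then 1 else 0) =
      if ((q * q' : ℕ) : ℤ) ∣ n - c then 1 else 0 := by
  have hc : IsCoprime (q : ℤ) (q' : ℤ) := Nat.isCoprime_iff_coprime.2 h
  obtain ⟨u, v, huv⟩ := hc
  refine ⟨b' * u * q + b * v * q', fun n => ?_⟩
  have e1 : (q : ℤ) ∣ n - b ↔ (q : ℤ) ∣ n - (b' * u * q + b * v * q') := by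
    have : n - b = n - (b' * u * q + b * v * q') + (q : ℤ) * ((b' - b) * u) := by
      linear_combination b * huv
    rw [this]
    exact (dvd_add_left (Dvd.intro _ rfl))
  have e2 : (q' : ℤ) ∣ n - b' ↔ (q' : ℤ) ∣ n - (b' * u * q + b * v * q') := by
    have : n - b' = n - (b' * u * q + b * v * q') + (q' : ℤ) * ((b - b') * v) := by
      linear_combination b' * huv
    rw [this]
    exact (dvd_add_left (Dvd.intro _ rfl))
  have e3 : ((q * q' : ℕ) : ℤ) ∣ n - (b' * u * q + b * v * q') ↔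
      (q : ℤ) ∣ n - (b' * u * q + b * v * q') ∧ (q' : ℤ) ∣ n - (b' * u * q + b * v * q') := by
    push_cast
    constructor
    · intro hd
      exact ⟨(Dvd.intro _ rfl).trans hd, (Dvd.intro_left _ rfl).trans hd⟩
    · rintro ⟨hd1, hd2⟩
      exact (Nat.isCoprime_iff_coprime.2 h).mul_dvd hd1 hd2
  simp only [e1, e2, e3]
  by_cases h1 : (q : ℤ) ∣ n - (b' * u * q + b * v * q') <;>
  by_cases h2 : (q' : ℤ) ∣ n - (b' * u * q + b * v * q') <;> simp [h1, h2]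

theorem part1 (S S' : ℕ → Prop) (Y Y' R R' : ℝ) (Φ Φ' : ℤ → ℝ) (m m' : ℝ) (hE : Ex S Y R Φ m)
    (hE' : Ex S' Y' R' Φ' m') (hS : ∀ p, S p → ¬ S' p) (hR : 0 ≤ R) (hR' : 0 ≤ R') :
    Ex (fun p => S p ∨ S' p) (Y * Y') (R * R') (fun n => Φ n * Φ' n) (m * m') := by
  obtain ⟨s, φ, h1, h2, h3, h4⟩ := hE
  obtain ⟨s', φ', h1', h2', h3', h4'⟩ := hE'
  have hcop : ∀ x ∈ s, ∀ y ∈ s', Nat.Coprime x.1 y.1 := by
    intro x hx y hy
    apply Nat.Coprime.symm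
    apply Nat.coprime_of_dvd
    intro p hp hpy hpx
    exact hS p ((h3 x hx).2.2.2.2 p hp hpx) ((h3' y hy).2.2.2.2 p hp hpy)
  have hc : ∀ z : (ℕ × ℤ) × (ℕ × ℤ), ∃ c : ℤ, z ∈ s ×ˢ s' → ∀ n : ℤ,
      (if (z.1.1 : ℤ) ∣ n - z.1.2 then (1 : ℝ) else 0) * (if (z.2.1 : ℤ) ∣ n - z.2.2 then 1 else 0) =
        if ((z.1.1 * z.2.1 : ℕ) : ℤ) ∣ n - c then 1 else 0 := by
    intro z
    by_cases hz : z ∈ s ×ˢ s'
    · rw [Finset.mem_product] at hz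
      obtain ⟨c, hc⟩ := crt (hcop z.1 hz.1 z.2 hz.2) z.1.2 z.2.2
      exact ⟨c, fun _ => hc⟩
    · exact ⟨0, fun h => absurd h hz⟩
  choose c hc using hc
  refine ofFam (s ×ˢ s') (fun z => z.1.1 * z.2.1) c (fun z => φ z.1 * φ' z.2) _ _ _ _ _ ?_ ?_ ?_ ?_
  · intro n
    show Φ n * Φ' n = _
    rw [h1 n, h1' n, Finset.sum_mul_sum, ← Finset.sum_product']
    refine Finset.sum_congr rfl fun z hz => ?_
    rw [← hc z hz n]
    ring
  · have e : ∑ z ∈ s ×ˢ s', |φ z.1 * φ' z.2| = (∑ x ∈ s, |φ x|) * ∑ y ∈ s', |φ' y| := by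
      rw [Finset.sum_mul_sum, ← Finset.sum_product']
      refine Finset.sum_congr rfl fun z _ => ?_
      rw [abs_mul]
    rw [e]
    have a1 : 0 ≤ ∑ x ∈ s, |φ x| := Finset.sum_nonneg fun _ _ => abs_nonneg _
    have a2 : 0 ≤ ∑ y ∈ s', |φ' y| := Finset.sum_nonneg fun _ _ => abs_nonneg _
    exact mul_le_mul h2 h2' a2 (a1.trans h2)
  · intro z hz
    rw [Finset.mem_product] at hz
    obtain ⟨a1, a2, a3, a4, a5⟩ := h3 z.1 hz.1
    obtain ⟨b1, b2, b3, b4, b5⟩ := h3' z.2 hz.2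
    refine ⟨Nat.mul_pos a1 b1, ?_, a3.mul b3, ?_, ?_⟩
    · push_cast
      exact mul_le_mul a2 b2 (Nat.cast_nonneg _) hR
    · exact (Nat.squarefree_mul (hcop z.1 hz.1 z.2 hz.2)).2 ⟨a4, b4⟩
    · intro p hp hpd
      rcases (Nat.Prime.dvd_mul hp).1 hpd with h | h
      · exact Or.inl (a5 p hp h)
      · exact Or.inr (b5 p hp h)
  · rw [h4, h4', Finset.sum_mul_sum, ← Finset.sum_product']
    refine Finset.sum_congr rfl fun z hz => ?_
    push_cast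
    rw [div_mul_div_comm]

theorem part2 (S : ℕ → Prop) (I : Type) (T : Finset I) (a Y : I → ℝ) (R : ℝ) (Φ : I → ℤ → ℝ)
    (m : I → ℝ) (hT : ∀ i ∈ T, Ex S (Y i) R (Φ i) (m i)) :
    Ex S (∑ i ∈ T, |a i| * Y i) R (fun n => ∑ i ∈ T, a i * Φ i n) (∑ i ∈ T, a i * m i) := by
  choose! s φ h using hT
  refine ofFam (T.sigma s) (fun z => z.2.1) (fun z => z.2.2) (fun z => a z.1 * φ z.1 z.2) _ _ _ _ _
    ?_ ?_ ?_ ?_
  · intro n
    rw [Finset.sum_sigma]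
    refine Finset.sum_congr rfl fun i hi => ?_
    rw [(h i hi).1 n, Finset.mul_sum]
    refine Finset.sum_congr rfl fun x _ => ?_
    ring
  · rw [Finset.sum_sigma]
    refine Finset.sum_le_sum fun i hi => ?_
    have e : ∑ x ∈ s i, |a i * φ i x| = |a i| * ∑ x ∈ s i, |φ i x| := by
      rw [Finset.mul_sum]
      refine Finset.sum_congr rfl fun x _ => ?_
      rw [abs_mul]
    show ∑ x ∈ s i, |a i * φ i x| ≤ _
    rw [e]
    exact mul_le_mul_of_nonneg_left (h i hi).2.1 (abs_nonneg _)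
  · intro z hz
    rw [Finset.mem_sigma] at hz
    exact (h z.1 hz.1).2.2.1 z.2 hz.2
  · rw [Finset.sum_sigma]
    refine Finset.sum_congr rfl fun i hi => ?_
    rw [(h i hi).2.2.2, Finset.mul_sum]
    refine Finset.sum_congr rfl fun x _ => ?_
    show a i * (φ i x / (x.1 : ℝ)) = a i * φ i x / (x.1 : ℝ)
    ring

theorem cnt (q k : ℕ) (hq : 1 ≤ q) (b : ℤ) :
    ∑ n ∈ Finset.Ico (0 : ℤ) ((q * k : ℕ) : ℤ), (if (q : ℤ) ∣ n - b then (1 : ℝ) else 0) = k := by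
  rw [Finset.sum_boole]
  have hq' : (0 : ℤ) < (q : ℤ) := by exact_mod_cast hq
  have hq'' : (q : ℚ) ≠ 0 := by
    have : (q : ℤ) ≠ 0 := hq'.ne'
    exact_mod_cast this
  have h1 := Int.Ico_filter_modEq_card (0 : ℤ) ((q * k : ℕ) : ℤ) hq' b
  have h2 : (Finset.Ico (0 : ℤ) ((q * k : ℕ) : ℤ)).filter (fun n => (q : ℤ) ∣ n - b) =
      (Finset.Ico (0 : ℤ) ((q * k : ℕ) : ℤ)).filter (fun n => n ≡ b [ZMOD (q : ℤ)]) := by
    apply Finset.filter_congr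
    intro n _
    rw [Int.modEq_comm, Int.modEq_iff_dvd]
  rw [h2]
  have h3 : (((Finset.Ico (0 : ℤ) ((q * k : ℕ) : ℤ)).filter (fun n => n ≡ b [ZMOD (q : ℤ)])).card : ℤ) = k := by
    rw [h1]
    have e : ((((q * k : ℕ) : ℤ) : ℚ) - (b : ℚ)) / ((q : ℤ) : ℚ) = (((0 : ℤ) : ℚ) - b) / ((q : ℤ) : ℚ) + (k : ℤ) := by
      push_cast
      field_simp
      ring
    rw [e, Int.ceil_add_intCast]
    rw [add_sub_cancel_left]
    exact max_eq_left (by positivity)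
  exact_mod_cast h3

theorem avg (s : Finset (ℕ × ℤ)) (φ : ℕ × ℤ → ℝ) (Φ : ℤ → ℝ)
    (h1 : ∀ n : ℤ, Φ n = ∑ x ∈ s, φ x * (if (x.1 : ℤ) ∣ n - x.2 then 1 else 0))
    (h3 : ∀ x ∈ s, 1 ≤ x.1) (Q : ℕ) (hQ : ∀ x ∈ s, x.1 ∣ Q) :
    ∑ n ∈ Finset.Ico (0 : ℤ) (Q : ℤ), Φ n = Q * ∑ x ∈ s, φ x / x.1 := by
  simp only [h1]
  rw [Finset.sum_comm, Finset.mul_sum]
  refine Finset.sum_congr rfl fun x hx => ?_
  obtain ⟨k, hk⟩ := hQ x hx
  rw [← Finset.mul_sum, hk, cnt x.1 k (h3 x hx)]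
  have : (x.1 : ℝ) ≠ 0 := by
    have := h3 x hx
    exact_mod_cast (by omega : x.1 ≠ 0)
  push_cast
  field_simp

theorem main : St_EXM := by
  refine ⟨part1, part2, ?_, ?_, ?_, ?_⟩
  · rintro S S' Y Y' R R' Φ m ⟨s, φ, h1, h2, h3, h4⟩ hS hY hR
    refine ⟨s, φ, h1, h2.trans hY, fun x hx => ?_, h4⟩
    obtain ⟨a1, a2, a3, a4, a5⟩ := h3 x hx
    exact ⟨a1, a2.trans hR, a3, a4, fun p hp hpd => hS p (a5 p hp hpd)⟩
  · intro S q b hq ho hs hp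
    refine ⟨{(q, b)}, fun _ => 1, fun n => by rw [Finset.sum_singleton, one_mul], by simp, ?_, by simp⟩
    intro x hx
    rw [Finset.mem_singleton] at hx
    subst hx
    exact ⟨hq, le_rfl, ho, hs, hp⟩
  · rintro S S' Y Y' R R' Φ m m' ⟨s, φ, h1, h2, h3, h4⟩ ⟨s', φ', h1', h2', h3', h4'⟩
    set Q : ℕ := (∏ x ∈ s, x.1) * ∏ x ∈ s', x.1 with hQ
    have hQ0 : 0 < Q := Nat.mul_pos (Finset.prod_pos fun x hx => (h3 x hx).1)
      (Finset.prod_pos fun x hx => (h3' x hx).1)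
    have a1 := avg s φ Φ h1 (fun x hx => (h3 x hx).1) Q
      (fun x hx => (Finset.dvd_prod_of_mem (fun x : ℕ × ℤ => x.1) hx).mul_right _)
    have a2 := avg s' φ' Φ h1' (fun x hx => (h3' x hx).1) Q
      (fun x hx => (Finset.dvd_prod_of_mem (fun x : ℕ × ℤ => x.1) hx).mul_left _)
    rw [a1, ← h4, ← h4'] at a2
    have : (Q : ℝ) ≠ 0 := by exact_mod_cast hQ0.ne'
    exact mul_left_cancel₀ this a2
  · rintro S Y R Φ m ⟨s, φ, h1, h2, h3, h4⟩ hΦ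
    set Q : ℕ := ∏ x ∈ s, x.1 with hQ
    have hQ0 : 0 < Q := Finset.prod_pos fun x hx => (h3 x hx).1
    have a1 := avg s φ Φ h1 (fun x hx => (h3 x hx).1) Q
      (fun x hx => Finset.dvd_prod_of_mem (fun x : ℕ × ℤ => x.1) hx)
    rw [← h4] at a1
    have hpos : (0 : ℝ) < Q := by exact_mod_cast hQ0
    have a2 : 0 ≤ (Q : ℝ) * m := by
      rw [← a1]
      exact Finset.sum_nonneg fun n _ => hΦ n
    exact nonneg_of_mul_nonneg_right a2 hpos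

end Pool.Agent.W918.UBexm
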