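import Pool.Agent.W886.AM.Stm0

set_option autoImplicit false
set_option linter.all false

namespace Pool.Agent.W918.AMSETT

open Pool.Agent.NPC Pool.Agent.H620R2.Gauge Pool.Agent.W900.RB Pool.Agent.W886.AM

theorem contT_false (B : Oracle) (n r : ℕ) (t : List Bool → Option (List Bool)) (z : List Bool) :
    contT B n r t (false :: z) = if z = List.replicate z.length true ∧ z.length < 2 * n then
      decide (z.length < n + r) else B (reg n (false :: z)) := rfl

theorem contT_true (B : Oracle) (n r : ℕ) (t : List Bool → Option (List Bool)) (z : List Bool) :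
    contT B n r t (true :: z) =
      if t (z.take r) = some ((z.drop r).take n) ∧ r + n ≤ z.length ∧
      z.length < r + n + 3 * n ∧ z.drop (r + n) = List.replicate (z.length - (r + n)) true then true
      else B (reg n (true :: z)) := rfl

theorem setT_reg (B : Oracle) (n r : ℕ) (t : List Bool → Option (List Bool)) (z : List Bool) :
    setT B n r t (reg n z) = contT B n r t z := by
  have h : reg n z ∈ Region n := reg_mem n z
  unfold setT
  rw [dif_pos h]
  congr 1
  exact (rep_inj' h.choose_spec).2.symm

theorem setT_off (B : Oracle) (n r : ℕ) (t : List Bool → Option (List Bool)) (y : List Bool)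
    (h : y ∉ Region n) : setT B n r t y = B y := by
  unfold setT
  rw [dif_neg h]

theorem setT_mk (B : Oracle) {n : ℕ} (r : ℕ) (t : List Bool → Option (List Bool)) {j : ℕ}
    (h : j < 2 * n) : setT B n r t (mk n j) = decide (j < n + r) := by
  unfold mk
  rw [setT_reg, contT_false, if_pos]
  · simp
  · simp only [List.length_replicate, true_and]
    exact h

theorem marked_setT (B : Oracle) (n r : ℕ) (t : List Bool → Option (List Bool)) :
    Marked (setT B n r t) n := by
  intro j hj
  rw [setT_mk B r t (by omega)]
  simp
  omega

theorem rr_setT (B : Oracle) {n r : ℕ} (t : List Bool → Option (List Bool)) (hr : r ≤ n) :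
    rr (setT B n r t) n = r := by
  unfold rr
  have h1 : (List.range n).map (fun j => setT B n r t (mk n (n + j))) =
      (List.range n).map (fun j => decide (j < r)) := by
    apply List.map_congr_left
    intro j hj
    rw [List.mem_range] at hj
    rw [setT_mk B r t (by omega)]
    apply decide_eq_decide.2
    omega
  rw [h1]
  have h2 : ∀ m : ℕ, (((List.range m).map (fun j => decide (j < r))).filter (fun b => b)).length =
      min m r := by
    intro m
    induction m with
    | zero => simp
    | succ m ih =>
      rw [List.range_succ, List.map_append, List.filter_append, List.length_append, ih]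
      by_cases h : m < r
      · simp [h]
        omega
      · simp [h]
        omega
  rw [h2]
  omega

/-- Decomposition of the strings satisfying the condition. -/
theorem decomp (n r : ℕ) (z : List Bool) (h1 : r + n ≤ z.length)
    (h2 : z.drop (r + n) = List.replicate (z.length - (r + n)) true) :
    (z.take r).length = r ∧ ((z.drop r).take n).length = n ∧
    reg n (true :: z) = bl n (z.take r) ((z.drop r).take n) (z.length - (r + n)) := by
  refine ⟨?_, ?_, ?_⟩
  · rw [List.length_take]
    omega
  · rw [List.length_take, List.length_drop]
    omega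
  · unfold bl
    rw [← h2, ← List.drop_drop, List.take_append_drop, List.take_append_drop]

theorem comp (n : ℕ) (w u : List Bool) (j : ℕ) (hu : u.length = n) :
    (w ++ (u ++ List.replicate j true)).take w.length = w ∧
    ((w ++ (u ++ List.replicate j true)).drop w.length).take n = u ∧
    (w ++ (u ++ List.replicate j true)).length = w.length + n + j ∧
    (w ++ (u ++ List.replicate j true)).drop (w.length + n) = List.replicate j true := by
  subst hu
  refine ⟨?_, ?_, ?_, ?_⟩
  · rw [List.take_left]
  · rw [List.drop_left, List.take_left]
  · simp only [List.length_append, List.length_replicate]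
    omega
  · rw [← List.drop_drop, List.drop_left, List.drop_left]

/-- The value on the strings of the blocks. -/
theorem setT_bl (B : Oracle) (n r : ℕ) (t : List Bool → Option (List Bool)) (w u : List Bool)
    (j : ℕ) (hw : w.length = r) (hu : u.length = n) (hj : j < 3 * n) :
    setT B n r t (bl n w u j) = if t w = some u then true else B (bl n w u j) := by
  obtain ⟨h1, h2, h3, h4⟩ := comp n w u j hu
  subst hw
  have hb : bl n w u j = reg n (true :: (w ++ (u ++ List.replicate j true))) := rfl
  rw [hb, setT_reg, contT_true, h1, h2, h3, h4]
  have h5 : w.length + n + j - (w.length + n) = j := by omega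
  rw [h5]
  by_cases ht : t w = some u
  · rw [if_pos ⟨ht, by omega, by omega, rfl⟩, if_pos ht]
  · rw [if_neg (fun h => ht h.1), if_neg ht]

theorem setT_diff (B : Oracle) (n r : ℕ) (t : List Bool → Option (List Bool)) :
    {y | B y ≠ setT B n r t y} ⊆ (fun j => mk n j) '' (Set.Iio (2 * n)) ∪
      (fun s : (Fin r → Bool) × Fin (3 * n) =>
        bl n (List.ofFn s.1) ((t (List.ofFn s.1)).getD []) s.2) '' Set.univ := by
  intro y hy
  by_cases h : y ∈ Region n
  · obtain ⟨z, rfl⟩ := h
    change B (reg n z) ≠ setT B n r t (reg n z) at hy
    rw [setT_reg] at hy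
    rcases z with _ | ⟨_ | _, z⟩
    · exact absurd rfl hy
    · left
      rw [contT_false] at hy
      split_ifs at hy with h1
      · refine ⟨z.length, h1.2, ?_⟩
        show reg n (false :: List.replicate z.length true) = _
        rw [← h1.1]
        rfl
      · exact absurd rfl hy
    · right
      rw [contT_true] at hy
      split_ifs at hy with h1
      · obtain ⟨h2, h3, h4, h5⟩ := h1
        obtain ⟨h6, h7, h8⟩ := decomp n r z h3 h5
        refine ⟨(fun i => (z.take r).get (i.cast h6.symm), ⟨z.length - (r + n), by omega⟩),
          Set.mem_univ _, ?_⟩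
        have h9 : List.ofFn (fun i : Fin r => (z.take r).get (i.cast h6.symm)) = z.take r := by
          apply List.ext_get
          · simp only [List.length_ofFn]
            exact h6.symm
          · intro i hi1 hi2
            simp
        show bl n (List.ofFn (fun i : Fin r => (z.take r).get (i.cast h6.symm)))
          ((t (List.ofFn (fun i : Fin r => (z.take r).get (i.cast h6.symm)))).getD [])
          (z.length - (r + n)) = _
        rw [h9, h2]
        exact h8.symm
      · exact absurd rfl hy
  · exact absurd (setT_off B n r t y h).symm hy

theorem setT_finite (B : Oracle) (n r : ℕ) (t : List Bool → Option (List Bool)) :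
    {y | B y ≠ setT B n r t y}.Finite :=
  (((Set.finite_Iio _).image _).union (Set.finite_univ.image _)).subset (setT_diff B n r t)

theorem setT_card (B : Oracle) (n r : ℕ) (t : List Bool → Option (List Bool)) :
    {y | B y ≠ setT B n r t y}.ncard ≤ 2 * n + 3 * n * 2 ^ r := by
  refine (Set.ncard_le_ncard (setT_diff B n r t)
    (((Set.finite_Iio _).image _).union (Set.finite_univ.image _))).trans ?_
  refine (Set.ncard_union_le _ _).trans (Nat.add_le_add ?_ ?_)
  · refine (Set.ncard_image_le (Set.finite_Iio _)).trans (le_of_eq ?_)
    rw [← Finset.coe_Iio, Set.ncard_coe_finset, Nat.card_Iio]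
  · refine (Set.ncard_image_le Set.finite_univ).trans (le_of_eq ?_)
    rw [Set.ncard_univ, Nat.card_eq_fintype_card, Fintype.card_prod,
      Fintype.card_fun, Fintype.card_bool, Fintype.card_fin, Fintype.card_fin, Nat.mul_comm]

theorem setT_two (B : Oracle) (n r : ℕ) (t t' : List Bool → Option (List Bool)) (y : List Bool)
    (hy : setT B n r t y ≠ setT B n r t' y) : ∃ (w u : List Bool) (j : ℕ), w.length = r ∧
        u.length = n ∧ y = bl n w u j ∧ (t w = some u ∧ t' w ≠ some u ∨ t' w = some u ∧
          t w ≠ some u) := by
  by_cases h : y ∈ Region n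
  · obtain ⟨z, rfl⟩ := h
    change setT B n r t (reg n z) ≠ setT B n r t' (reg n z) at hy
    rw [setT_reg, setT_reg] at hy
    rcases z with _ | ⟨_ | _, z⟩
    · exact absurd rfl hy
    · exact absurd rfl hy
    · rw [contT_true, contT_true] at hy
      by_cases hc : r + n ≤ z.length ∧
        z.length < r + n + 3 * n ∧ z.drop (r + n) = List.replicate (z.length - (r + n)) true
      · obtain ⟨h6, h7, h8⟩ := decomp n r z hc.1 hc.2.2
        refine ⟨z.take r, (z.drop r).take n, z.length - (r + n), h6, h7, h8, ?_⟩
        by_cases h1 : t (z.take r) = some ((z.drop r).take n)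
        · by_cases h2 : t' (z.take r) = some ((z.drop r).take n)
          · exfalso
            apply hy
            rw [if_pos ⟨h1, hc⟩, if_pos ⟨h2, hc⟩]
          · exact Or.inl ⟨h1, h2⟩
        · by_cases h2 : t' (z.take r) = some ((z.drop r).take n)
          · exact Or.inr ⟨h2, h1⟩
          · exfalso
            apply hy
            rw [if_neg (fun h => h1 h.1), if_neg (fun h => h2 h.1)]
      · exfalso
        apply hy
        rw [if_neg (fun h => hc h.2), if_neg (fun h => hc h.2)]
  · exfalso
    apply hy
    rw [setT_off B n r t y h, setT_off B n r t' y h]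

theorem task : Pool.Agent.W886.AM.S_SETT := by
  intro B n r t hr
  refine ⟨fun y hy => setT_off B n r t y hy, marked_setT B n r t, rr_setT B t hr,
    setT_finite B n r t, setT_card B n r t, ?_, ?_, ?_⟩
  · intro w u hw ht hu
    refine ⟨hu, fun j hj => ?_⟩
    rw [setT_bl B n r t w u j hw hu hj, if_pos ht]
  · intro hcl w u hw hans
    by_contra ht
    obtain ⟨hu, hans⟩ := hans
    obtain ⟨j, hj, hB⟩ := hcl r hr w u hw hu
    have h1 := hans j hj
    rw [setT_bl B n r t w u j hw hu hj, if_neg ht, hB] at h1
    exact absurd h1 (by decide)
  · intro t' y hy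
    exact setT_two B n r t t' y hy

end Pool.Agent.W918.AMSETT
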