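import Pool.Agent.W886.PM.Stm0

set_option autoImplicit false
set_option linter.all false

namespace Pool.Agent.W918.PMPLB

open Pool.Agent.NPC Pool.Agent.H620R2.Gauge Pool.Agent.H943R6.MC Pool.Agent.H622R2.Ckt
open Pool.Agent.W886.PM
open Finset H568R2

/-- the program that asks one question -/
def PP (u : List Bool) (n : ℕ) : BP :=
  [(Sum.inr (u.map Sum.inl ++ (List.range n).map Sum.inr), 0, 1)]

theorem bsize_PP (u : List Bool) (n : ℕ) : bsize (PP u n) = u.length + n + 3 := by
  simp [bsize, PP, lsz]
  omega

theorem wf_PP (u : List Bool) (n : ℕ) : WF n (PP u n) := by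
  refine ⟨?_, by simp, by simp, trivial⟩
  intro i hi
  simp at hi
  exact hi

theorem bout_PP (u : List Bool) (A : Oracle) (x : List Bool) :
    bout A (PP u x.length) x = A (u ++ x) := by
  have h1 : (u.map Sum.inl).map (item x) = u := by
    rw [List.map_map]
    exact List.map_id u
  have h2 : ((List.range x.length).map Sum.inr).map (item x) = x := by
    rw [List.map_map]
    exact CIR.map_getD x
  unfold bout PP vals
  simp only [vals, ans, List.map_append, h1, h2]
  cases A (u ++ x) <;> rfl

theorem task : Pool.Agent.W886.PM.S_PLB := by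
  intro A j N hN s
  refine ⟨PP (bitsOf (2 ^ j) s) (2 * j), wf_PP _ _, ?_, ?_⟩
  · rw [bsize_PP, length_bitsOf']
    unfold Pool.Agent.H943R6.MC.sz
    omega
  · apply List.ext_getElem
    · simp [table, length_cube]
    · intro i h1 h2
      have h3 : i < (cube (2 * j)).length := by
        rw [length_cube]; simpa using h2
      have h4 : ((cube (2 * j))[i]'h3).length = 2 * j :=
        length_cube_mem _ _ (List.getElem_mem _)
      have h5 : bout A (PP (bitsOf (2 ^ j) s) (2 * j)) ((cube (2 * j))[i]'h3) =
          A (bitsOf (2 ^ j) s ++ (cube (2 * j))[i]'h3) := by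
        have h6 := bout_PP (bitsOf (2 ^ j) s) A ((cube (2 * j))[i]'h3)
        rwa [h4] at h6
      simp only [table, List.getElem_map, List.getElem_ofFn, h5, pre, pos, str_idx]

end Pool.Agent.W918.PMPLB
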