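import Pool.Agent.W217.BE.Stm

set_option autoImplicit false
set_option linter.all false

namespace Pool.Agent.W918.BEKILL

open Polynomial Pool.Agent.W217.BE

theorem lift_range {C P A B : Type} [CommRing C] [AddCommGroup P] [Module C P]
    [AddCommGroup A] [Module C A] [AddCommGroup B] [Module C B] (hP : Module.Projective C P)
    (f : A →ₗ[C] B) (g : P →ₗ[C] B) (h : ∀ x, g x ∈ LinearMap.range f) :
    ∃ q : P →ₗ[C] A, ∀ x, f (q x) = g x := by
  obtain ⟨q, hq⟩ := Module.projective_lifting_property f.rangeRestrict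
    (g.codRestrict (LinearMap.range f) h) f.surjective_rangeRestrict
  refine ⟨q, fun x => ?_⟩
  have h1 := LinearMap.congr_fun hq x
  exact congrArg Subtype.val h1

theorem main : KILL := by
  intro C _ M N _ _ _ _ _ _ P F _ _ _ _ _ _ d ε dF εF π σ τ hproj hx hσX hres hresF hπX
  obtain ⟨hε, hd0, hdi⟩ := hres
  obtain ⟨hεF, hF0, hFi⟩ := hresF
  have hεd : ∀ x, ε (d 0 x) = 0 := by
    intro x
    have h1 : d 0 x ∈ LinearMap.range (d 0) := ⟨x, rfl⟩
    rw [hd0] at h1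
    exact h1
  have hdd : ∀ i x, d i (d (i + 1) x) = 0 := by
    intro i x
    have h1 : d (i + 1) x ∈ LinearMap.range (d (i + 1)) := ⟨x, rfl⟩
    rw [hdi] at h1
    exact h1
  -- level 0
  obtain ⟨q0, hq0⟩ := lift_range (hproj 0) εF (π ∘ₗ (ε.restrictScalars C)) (fun x => hεF _)
  have hq0' : ∀ x, εF (q0 x) = π (ε x) := hq0
  have h0a : ∀ x, εF ((q0 ∘ₗ σ 0) x) = π (ε x) := by
    intro x
    rw [LinearMap.comp_apply, hq0']
    conv_rhs => rw [hx 0 x, map_add, map_add, map_smul, hπX, add_zero]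
  have h0b : ∀ x, (q0 ∘ₗ σ 0) ((X : C[X]) • x) = 0 := by
    intro x
    rw [LinearMap.comp_apply, hσX, map_zero]
  have h0c : ∀ x, (q0 ∘ₗ σ 0) (d 0 x) ∈ LinearMap.range (dF 0) := by
    intro x
    rw [hF0, LinearMap.mem_ker, h0a, hεd, map_zero]
  -- the step
  have step : ∀ (i : ℕ) (p : {p : P i →ₗ[C] F i // (∀ x, p ((X : C[X]) • x) = 0) ∧
      ∀ x, p (d i x) ∈ LinearMap.range (dF i)}),
      ∃ p' : {p : P (i + 1) →ₗ[C] F (i + 1) // (∀ x, p ((X : C[X]) • x) = 0) ∧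
      ∀ x, p (d (i + 1) x) ∈ LinearMap.range (dF (i + 1))},
      ∀ x, dF i (p'.1 x) = p.1 (d i x) := by
    rintro i ⟨p, hp1, hp2⟩
    obtain ⟨q, hq⟩ := lift_range (hproj (i + 1)) (dF i) (p ∘ₗ ((d i).restrictScalars C)) hp2
    have hq' : ∀ x, dF i (q x) = p (d i x) := hq
    have ha : ∀ x, dF i ((q ∘ₗ σ (i + 1)) x) = p (d i x) := by
      intro x
      rw [LinearMap.comp_apply, hq']
      conv_rhs => rw [hx (i + 1) x, map_add, map_add, map_smul, hp1, add_zero]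
    refine ⟨⟨q ∘ₗ σ (i + 1), ?_, ?_⟩, ha⟩
    · intro x
      rw [LinearMap.comp_apply, hσX, map_zero]
    · intro x
      rw [hFi, LinearMap.mem_ker, ha, hdd, map_zero]
  choose nx hnx using step
  let p : ∀ i, {p : P i →ₗ[C] F i // (∀ x, p ((X : C[X]) • x) = 0) ∧
      ∀ x, p (d i x) ∈ LinearMap.range (dF i)} :=
    fun i => Nat.rec ⟨q0 ∘ₗ σ 0, h0b, h0c⟩ (fun i s => nx i s) i
  exact ⟨fun i => (p i).1, h0a, fun i x => hnx i (p i) x, fun i x => (p i).2.1 x⟩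

end Pool.Agent.W918.BEKILL
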