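import Pool.Agent.W527.CL.Stm

set_option autoImplicit false
set_option linter.all false

namespace Pool.Agent.W918.CLSPAN

open NumberField
open Pool.Agent.W527.CL

noncomputable section

variable {K : Type} [Field K] [NumberField K] (D : FieldData K)

theorem mu_add (X Y : Matrix (Fin 4) (Fin 4) ℝ) : D.mu (X + Y) = D.mu X + D.mu Y := by
  funext i k
  simp only [FieldData.mu, Pi.add_apply, Matrix.add_apply]
  rw [← Finset.sum_add_distrib]
  exact Finset.sum_congr rfl fun j _ => by ring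

theorem mu_smul (c : ℝ) (X : Matrix (Fin 4) (Fin 4) ℝ) : D.mu (c • X) = c • D.mu X := by
  funext i k
  simp only [FieldData.mu, Pi.smul_apply, Matrix.smul_apply, smul_eq_mul]
  rw [Finset.mul_sum]
  exact Finset.sum_congr rfl fun j _ => by ring

theorem ev_add (μ ν : Fin 4 → Fin 5 → ℝ) (p : Equiv.Perm (Fin 5)) : ev (μ + ν) p = ev μ p + ev ν p := by
  unfold ev
  rw [← Finset.sum_add_distrib]
  exact Finset.sum_congr rfl fun j _ => by
    simp only [Pi.add_apply]
    ring

theorem ev_smul (c : ℝ) (μ : Fin 4 → Fin 5 → ℝ) (p : Equiv.Perm (Fin 5)) : ev (c • μ) p = c * ev μ p := by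
  unfold ev
  rw [Finset.mul_sum]
  exact Finset.sum_congr rfl fun j _ => by
    simp only [Pi.smul_apply, smul_eq_mul]
    ring

/-- the space of logarithm vectors -/
def VS : Submodule ℝ ((K →+* ℂ) → ℝ) where
  carrier := {f | ∃ X : Matrix (Fin 4) (Fin 4) ℝ, X.IsSymm ∧ ∀ φ, f φ = ev (D.mu X) (D.perm φ)}
  zero_mem' := ⟨0, Matrix.isSymm_zero, fun φ => by
    have h := mu_smul D 0 0
    rw [zero_smul] at h
    rw [h, ev_smul, zero_mul]
    rfl⟩
  add_mem' := by
    rintro f g ⟨X, hX, hf⟩ ⟨Y, hY, hg⟩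
    exact ⟨X + Y, hX.add hY, fun φ => by rw [Pi.add_apply, hf, hg, mu_add, ev_add]⟩
  smul_mem' := by
    rintro c f ⟨X, hX, hf⟩
    exact ⟨c • X, hX.smul c, fun φ => by rw [Pi.smul_apply, hf, mu_smul, ev_smul, smul_eq_mul]⟩

/-- the logarithm vector -/
def lv (u : (K →+* ℂ) → ℂˣ) : (K →+* ℂ) → ℝ := fun φ => Real.log ‖(u φ : ℂ)‖

theorem lv_mul (u v : (K →+* ℂ) → ℂˣ) : lv (u * v) = lv u + lv v := by
  funext φ
  simp only [lv, Pi.mul_apply, Pi.add_apply, Units.val_mul, norm_mul]
  exact Real.log_mul (norm_ne_zero_iff.2 (Units.ne_zero _)) (norm_ne_zero_iff.2 (Units.ne_zero _))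

theorem lv_one : lv (1 : (K →+* ℂ) → ℂˣ) = 0 := by
  funext φ
  simp [lv]

theorem lv_inv (u : (K →+* ℂ) → ℂˣ) : lv (u⁻¹) = - lv u := by
  funext φ
  simp [lv, Real.log_inv]

/-- units whose logarithm vector is in the space -/
def SG : Subgroup ((K →+* ℂ) → ℂˣ) where
  carrier := {u | lv u ∈ VS D}
  one_mem' := by
    show lv 1 ∈ VS D
    rw [lv_one]
    exact Submodule.zero_mem _
  mul_mem' := by
    intro u v hu hv
    show lv (u * v) ∈ VS D
    rw [lv_mul]
    exact Submodule.add_mem _ hu hv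
  inv_mem' := by
    intro u hu
    show lv (u⁻¹) ∈ VS D
    rw [lv_inv]
    exact Submodule.neg_mem _ hu

theorem lv_cont : Continuous (lv : ((K →+* ℂ) → ℂˣ) → ((K →+* ℂ) → ℝ)) := by
  refine continuous_pi fun φ => ?_
  unfold lv
  have h1 : Continuous fun u : (K →+* ℂ) → ℂˣ => ‖((u φ : ℂˣ) : ℂ)‖ :=
    (Units.continuous_val.comp (continuous_apply φ)).norm
  exact h1.log fun u => norm_ne_zero_iff.2 (Units.ne_zero _)

theorem SG_closed : IsClosed ((SG D : Subgroup ((K →+* ℂ) → ℂˣ)) : Set ((K →+* ℂ) → ℂˣ)) := by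
  have h1 : IsClosed ((VS D : Submodule ℝ ((K →+* ℂ) → ℝ)) : Set ((K →+* ℂ) → ℝ)) :=
    (VS D).closed_of_finiteDimensional
  exact h1.preimage lv_cont

theorem mu_single (i j i' : Fin 4) (k : Fin 5) :
    D.mu (Matrix.single i j 1) i' k = if i' = i then D.lam j k else 0 := by
  unfold FieldData.mu
  by_cases h : i' = i
  · subst h
    rw [if_pos rfl, Finset.sum_eq_single j]
    · rw [Matrix.single_apply_same, one_mul]
    · intro j' _ hj'
      have e : (Matrix.single i' j (1 : ℝ) : Matrix (Fin 4) (Fin 4) ℝ) i' j' = 0 := by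
        unfold Matrix.single
        simp only [Matrix.of_apply]
        rw [if_neg]
        rintro ⟨_, h2⟩
        exact hj' h2.symm
      exact mul_eq_zero_of_left e _
    · intro hj
      exact absurd (Finset.mem_univ _) hj
  · rw [if_neg h]
    apply Finset.sum_eq_zero
    intro j' _
    have e : (Matrix.single i j (1 : ℝ) : Matrix (Fin 4) (Fin 4) ℝ) i' j' = 0 := by
      unfold Matrix.single
      simp only [Matrix.of_apply]
      rw [if_neg]
      rintro ⟨h1, _⟩
      exact h h1.symm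
    exact mul_eq_zero_of_left e _

theorem ev_single (i j : Fin 4) (p : Equiv.Perm (Fin 5)) :
    ev (D.mu (Matrix.single i j 1)) p = D.lam j (p i.castSucc) - D.lam j (p (Fin.last 4)) := by
  unfold ev
  simp only [mu_single]
  rw [Finset.sum_eq_single i]
  · simp
  · intro i' _ hi'
    rw [if_neg hi', if_neg hi', sub_zero]
  · intro h
    exact absurd (Finset.mem_univ _) h

theorem log_g (i j : Fin 4) (φ : K →+* ℂ) :
    Real.log ‖φ (D.g i j)‖ = D.lam j (D.perm φ i.castSucc) - D.lam j (D.perm φ (Fin.last 4)) := by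
  have h1 : φ (D.g i j) = (D.β (D.perm φ i.castSucc) + (nn j : ℂ)) / (D.β (D.perm φ (Fin.last 4)) + (nn j : ℂ)) := by
    unfold FieldData.g
    rw [map_div₀, map_add, map_add, D.perm_spec, D.perm_spec, map_intCast]
  have hne : ∀ k : Fin 5, D.β (D.perm φ k) + (nn j : ℂ) ≠ 0 := by
    intro k h
    have h2 : φ (D.b k + (nn j : K)) = 0 := by
      rw [map_add, D.perm_spec, map_intCast, h]
    exact D.ne_zero k j ((map_eq_zero φ).1 h2)
  rw [h1, norm_div, Real.log_div (norm_ne_zero_iff.2 (hne _)) (norm_ne_zero_iff.2 (hne _))]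
  rfl

theorem t_SPAN : S_SPAN := by
  intro K _ _ D u hu
  have hle : clos K D.L ≤ SG D := by
    refine Subgroup.topologicalClosure_minimal _ ?_ (SG_closed D)
    rw [Subgroup.map_le_iff_le_comap]
    unfold FieldData.L
    rw [Subgroup.closure_le]
    rintro x ⟨⟨i, j⟩, rfl⟩
    refine ⟨Matrix.single i j 1 + Matrix.single j i 1, ?_, ?_⟩
    · show (Matrix.single i j (1:ℝ) + Matrix.single j i 1).transpose = _
      rw [Matrix.transpose_add, Matrix.transpose_single, Matrix.transpose_single, add_comm]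
    · intro φ
      rw [mu_add, ev_add, ev_single, ev_single]
      have h1 : lv ((emb K) (D.gu i j * D.gu j i)) φ = Real.log ‖φ (D.g i j)‖ + Real.log ‖φ (D.g j i)‖ := by
        rw [map_mul, lv_mul]
        rfl
      show lv ((emb K) (D.gu i j * D.gu j i)) φ = _
      rw [h1, log_g, log_g]
  obtain ⟨X, hX, h⟩ := hle hu
  exact ⟨X, hX, h⟩

end

end Pool.Agent.W918.CLSPAN
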