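import Mathlib
import Pool.Agent.W996.EC.Stm
import Pool.Agent.Helper202.Riemann

/-! EC-UNIF for helper996's EC project (MP_209724_lc): `S_unif` and `S_hurN`. -/

set_option autoImplicit false

namespace Pool.Agent.W918.ECUnif

open MvPolynomial Filter Topology Pool.Agent.W996.EC

/-- the finite set of exponents bounded by `d` in each coordinate -/
noncomputable def box (n d : ℕ) : Finset (Fin n →₀ ℕ) :=
  Finset.Icc 0 (Finsupp.equivFunOnFinite.symm fun _ => d)

theorem mem_box {n d : ℕ} {m : Fin n →₀ ℕ} (h : ∀ i, m i ≤ d) : m ∈ box n d := by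
  unfold box
  rw [Finset.mem_Icc]
  refine ⟨zero_le, ?_⟩
  intro i
  simpa using h i

theorem coeff_eq_zero_of_not_mem {n d : ℕ} {p : MvPolynomial (Fin n) ℂ} (hp : p.totalDegree ≤ d)
    {m : Fin n →₀ ℕ} (hm : m ∉ box n d) : coeff m p = 0 := by
  by_contra h
  apply hm
  apply mem_box
  intro i
  have h1 := le_totalDegree (mem_support_iff.2 h)
  rw [Finsupp.sum_fintype _ _ (fun _ => rfl)] at h1
  exact ((Finset.single_le_sum (f := fun i => m i) (fun _ _ => Nat.zero_le _)
    (Finset.mem_univ i)).trans h1).trans hp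

theorem eval_box {n d : ℕ} {p : MvPolynomial (Fin n) ℂ}
    (hp : ∀ m, m ∉ box n d → coeff m p = 0) (x : Fin n → ℂ) :
    eval x p = ∑ m ∈ box n d, coeff m p * ∏ i, x i ^ m i := by
  rw [eval_eq']
  apply Finset.sum_subset
  · intro m hm
    by_contra h
    exact (mem_support_iff.1 hm) (hp m h)
  · intro m _ hm
    rw [notMem_support_iff.1 hm, zero_mul]

/-- joint convergence of values -/
theorem tendsto_eval {n : ℕ} {ι : Type*} {l : Filter ι} {p : ℕ → MvPolynomial (Fin n) ℂ}
    {q : MvPolynomial (Fin n) ℂ} (h : Conv p q) {J : ι → ℕ} (hJ : Tendsto J l atTop)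
    {x : ι → Fin n → ℂ} {x0 : Fin n → ℂ} (hx : Tendsto x l (𝓝 x0)) :
    Tendsto (fun z => eval (x z) (p (J z))) l (𝓝 (eval x0 q)) := by
  obtain ⟨⟨d, hd⟩, hc⟩ := h
  have hq : ∀ m, m ∉ box n d → coeff m q = 0 := by
    intro m hm
    apply tendsto_nhds_unique (hc m)
    apply tendsto_const_nhds.congr
    intro j
    rw [coeff_eq_zero_of_not_mem (hd j) hm]
  rw [eval_box hq]
  have h1 : (fun z => eval (x z) (p (J z))) =
      fun z => ∑ m ∈ box n d, coeff m (p (J z)) * ∏ i, x z i ^ m i := by
    funext z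
    exact eval_box (fun m hm => coeff_eq_zero_of_not_mem (hd _) hm) _
  rw [h1]
  refine tendsto_finsetSum _ fun m _ => ?_
  refine Tendsto.mul ((hc m).comp hJ) ?_
  refine tendsto_finsetProd _ fun i _ => ?_
  exact ((tendsto_pi_nhds.1 hx) i).pow _

/-- locally uniform convergence to a continuous function in terms of limits -/
theorem tlu_iff {β : Type*} [PseudoMetricSpace β] {V : Set ℂ} {y : ℕ → ℂ → β} {y0 : ℂ → β}
    (hy0 : ContinuousOn y0 V) : TendstoLocallyUniformlyOn y y0 atTop V ↔
    ∀ w ∈ V, Tendsto (fun z : ℕ × ℂ => y z.1 z.2) (atTop ×ˢ 𝓝[V] w) (𝓝 (y0 w)) := by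
  rw [tendstoLocallyUniformlyOn_iff_forall_tendsto]
  refine forall₂_congr fun w hw => ?_
  have h1 : Tendsto (fun z : ℕ × ℂ => y0 z.2) ((atTop : Filter ℕ) ×ˢ 𝓝[V] w) (𝓝 (y0 w)) :=
    (hy0 w hw).tendsto.comp tendsto_snd
  rw [tendsto_uniformity_iff_dist_tendsto_zero]
  constructor
  · intro h
    exact (tendsto_iff_of_dist h).1 h1
  · intro h
    have h2 := h1.dist h
    rwa [dist_self] at h2

theorem t_unif : S_unif := by
  intro n p q h V y y0 _ hy0 hy
  have hq : Continuous fun x : Fin n → ℂ => eval x q := MvPolynomial.continuous_eval q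
  have hc : ContinuousOn (fun w => eval (y0 w) q) V := hq.comp_continuousOn hy0
  refine (tlu_iff hc).2 ?_
  rw [tlu_iff hy0] at hy
  intro w hw
  exact tendsto_eval h tendsto_fst (hy w hw)

theorem conv_subseq {n : ℕ} {p : ℕ → MvPolynomial (Fin n) ℂ} {q : MvPolynomial (Fin n) ℂ}
    (h : Conv p q) {φ : ℕ → ℕ} (hφ : Tendsto φ atTop atTop) : Conv (fun j => p (φ j)) q :=
  ⟨⟨h.1.choose, fun j => h.1.choose_spec (φ j)⟩, fun m => (h.2 m).comp hφ⟩

theorem t_hurN : S_hurN := by
  intro n p q h hq x hx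
  obtain ⟨y, hy⟩ : ∃ y, eval y q ≠ 0 := by
    by_contra hcon
    push Not at hcon
    exact hq (MvPolynomial.funext fun y => by rw [hcon y, map_zero])
  -- the line
  set L : ℂ → Fin n → ℂ := fun t i => x i + t * (y i - x i) with hL
  have hLd : ∀ i, Differentiable ℂ fun t => L t i := by
    intro i
    exact (differentiable_const _).add (differentiable_id.mul_const _)
  have hLc : Continuous L := continuous_pi fun i => (hLd i).continuous
  have hdiff : ∀ r : MvPolynomial (Fin n) ℂ, Differentiable ℂ fun t => eval (L t) r := by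
    intro r
    simp only [eval_eq']
    refine Differentiable.fun_sum fun m _ => ?_
    refine (differentiable_const _).mul ?_
    refine Differentiable.fun_finsetProd fun i _ => ?_
    exact (hLd i).pow _
  have hL0 : L 0 = x := by funext i; simp [hL]
  have hL1 : L 1 = y := by funext i; simp [hL]
  -- eventually there is a small zero
  have key : ∀ ε : ℝ, 0 < ε → ∀ᶠ j in atTop, ∃ t : ℂ, ‖t‖ < ε ∧ eval (L t) (p j) = 0 := by
    intro ε hε
    by_contra hcon
    rw [not_eventually] at hcon
    obtain ⟨φ, hφ, hφ'⟩ := extraction_of_frequently_atTop hcon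
    have hconv := conv_subseq h hφ.tendsto_atTop
    have hlu := t_unif n _ q hconv (Metric.ball 0 ε) (fun _ => L) L Metric.isOpen_ball
      hLc.continuousOn (by
        rw [tlu_iff hLc.continuousOn]
        intro w hw
        exact (hLc.continuousWithinAt.tendsto).comp tendsto_snd)
    have hz := Pool.Agent.Helper202.Riemann.hurwitz (Metric.isOpen_ball)
      (fun j => (hdiff (p (φ j))).differentiableOn) hlu
      (by
        intro j z hz h0
        exact hφ' j ⟨z, by simpa using hz, h0⟩) (Metric.mem_ball_self hε)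
      (by rw [hL0]; exact hx)
    have han : AnalyticOnNhd ℂ (fun t => eval (L t) q) Set.univ := fun t _ =>
      (hdiff q).analyticAt t
    have h1 := han.eqOn_zero_of_preconnected_of_eventuallyEq_zero isPreconnected_univ
      (Set.mem_univ 0) hz
    apply hy
    have := h1 (Set.mem_univ 1)
    simpa [hL1] using this
  -- choose the zeros closest to the origin
  have hcl : ∀ j, IsClosed {t : ℂ | eval (L t) (p j) = 0} := fun j =>
    isClosed_eq (hdiff (p j)).continuous continuous_const
  have hch : ∀ j, ∃ t : ℂ, (∃ s : ℂ, eval (L s) (p j) = 0) →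
      eval (L t) (p j) = 0 ∧ ∀ s : ℂ, eval (L s) (p j) = 0 → ‖t‖ ≤ ‖s‖ := by
    intro j
    by_cases hne : ∃ s : ℂ, eval (L s) (p j) = 0
    · obtain ⟨t, ht, ht'⟩ := (hcl j).exists_infDist_eq_dist hne 0
      refine ⟨t, fun _ => ⟨ht, fun s hs => ?_⟩⟩
      have h1 : Metric.infDist 0 {t : ℂ | eval (L t) (p j) = 0} ≤ dist 0 s :=
        Metric.infDist_le_dist_of_mem hs
      rw [ht', dist_zero_left, dist_zero_left] at h1
      exact h1
    · exact ⟨0, fun hne' => absurd hne' hne⟩
  choose t ht using hch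
  refine ⟨fun j => L (t j), ?_, ?_⟩
  · have h1 : Tendsto t atTop (𝓝 0) := by
      rw [Metric.tendsto_nhds]
      intro ε hε
      filter_upwards [key ε hε] with j hj
      obtain ⟨s, hs, hs'⟩ := hj
      rw [dist_zero_right]
      exact ((ht j ⟨s, hs'⟩).2 s hs').trans_lt hs
    have h2 := (hLc.tendsto 0).comp h1
    rw [hL0] at h2
    exact h2
  · filter_upwards [key 1 one_pos] with j hj
    obtain ⟨s, _, hs'⟩ := hj
    exact (ht j ⟨s, hs'⟩).1

end Pool.Agent.W918.ECUnif
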